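import Pool.Agent.Helper226_Obs.FP.Final2

set_option autoImplicit false

/-!
MP_72b45c_co: the number `N g` of obstructions for embedding graphs in the closed orientable
surface of genus `g` is at least `2 ^ (c g ^ 2)` for every `c < (8 / 3) log₂ (7 / 4)` and all
large `g`; in particular it is at least `4 ^ (g ^ 2)` for all large `g`.
-/

namespace Pool.Agent.Results.MP_72b45c_co.ExpSquareLower

open Pool.Agent.Helper226_Obs

/-- For every `c < (8 / 3) log₂ (7 / 4) = 2.15...` there is `g₀` with `N g ≥ 2 ^ (c g ^ 2)` for all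
`g ≥ g₀`. -/
theorem result (c : ℝ) (hc : c < 8 / 3 * Real.logb 2 (7 / 4)) : ∃ g₀ : ℕ, ∀ g : ℕ, g₀ ≤ g →
    ∃ k : ℕ, (2 : ℝ) ^ (c * (g : ℝ) ^ 2) ≤ k ∧ (k : ℕ∞) ≤ N g :=
  fp_main2 c hc

end Pool.Agent.Results.MP_72b45c_co.ExpSquareLower
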